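import Pool.Agent.RGQ54.Rogers

/-!
# Rogers' question: three pieces and two independent translations are not enough

If Rogers' set `A` is equidecomposable, by disjoint bounded open pieces and up to nowhere dense
sets, to `(0, 1/2)` or to any other set with a finite boundary, then there are at least four pieces,
and the differences of the translation parts of the motions do not lie in a group generated by
two real numbers.
-/

open Set
open Pool.Agent.RGQ54

namespace Pool.Agent.Results.MP_191941_gt.FourPieces

theorem core {n : ℕ} {P : Fin n → Set ℝ} {g : Fin n → ℝ ≃ᵢ ℝ} {Y : Set ℝ} {α β : ℝ}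
    (h : Equidecomposition P g A Y) (hY : (frontier Y).Finite)
    (hd : ∀ i j, g i 0 - g j 0 ∈ AddSubgroup.closure ({α, β} : Set ℝ)) : False := by
  have hrep : ∀ i j, ∃ q : ℤ × ℤ × ℤ, Rep α β ((g j)⁻¹ * g i) q.1 q.2.1 q.2.2 := fun i j => by
    obtain ⟨σ, u, v, h⟩ := rep_of_mem (move_mem (hd i j))
    exact ⟨(σ, u, v), h⟩
  choose q hq using hrep
  refine finite_false h hY fun e => ?_
  rcases (AddSubgroup.closure ({α, β} : Set ℝ)).dense_or_cyclic with h1 | ⟨γ, h1⟩
  · exact finite_irrational h.isOpen h.bounded hq (dense_addSubgroupClosure_pair_iff.1 h1)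
  · exact finite_cyclic h.bounded hq h1

/-- **Theorem.** If Rogers' set `A` is taken to a set `Y` with a finite boundary, for instance to
`(0, 1/2)`, by pieces `P i` and motions `g i x = ± x + c i`, then there are at least four pieces, and
the differences `c i - c j` do not all lie in a group generated by two real numbers. -/
theorem result {n : ℕ} (P : Fin n → Set ℝ) (g : Fin n → ℝ ≃ᵢ ℝ) (Y : Set ℝ)
    (hY : (frontier Y).Finite) (h : Equidecomposition P g A Y) :
    4 ≤ n ∧ ¬ ∃ α β : ℝ, ∀ i j, g i 0 - g j 0 ∈ AddSubgroup.closure ({α, β} : Set ℝ) := by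
  refine ⟨?_, fun ⟨α, β, hd⟩ => core h hY hd⟩
  by_contra hn
  set c : ℕ → ℝ := fun k => if h : k < n then g ⟨k, h⟩ 0 else 0 with hc
  set G : AddSubgroup ℝ := AddSubgroup.closure ({c 1 - c 0, c 2 - c 0} : Set ℝ) with hG
  have key : ∀ i, g i 0 - c 0 ∈ G := by
    intro i
    have hi : c i.val = g i 0 := dif_pos i.2
    rw [← hi]
    have hi3 : i.val = 0 ∨ i.val = 1 ∨ i.val = 2 := by have := i.2; omega
    rcases hi3 with h1 | h1 | h1 <;> rw [h1]
    · rw [sub_self]; exact AddSubgroup.zero_mem _
    · exact AddSubgroup.subset_closure (Or.inl rfl)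
    · exact AddSubgroup.subset_closure (Or.inr rfl)
  refine core h hY (α := c 1 - c 0) (β := c 2 - c 0) fun i j => ?_
  have := AddSubgroup.sub_mem _ (key i) (key j)
  rwa [sub_sub_sub_cancel_right] at this

end Pool.Agent.Results.MP_191941_gt.FourPieces
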