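import Pool.Agent.RGQ54.Rogers
import Pool.Agent.RGQ54.Paths

/-!
# Rogers' question: some piece has an uncountable boundary

If Rogers' set `A` is equidecomposable, by disjoint bounded open pieces and up to nowhere dense
sets, to `(0, 1/2)` or to any other set with a finite boundary, then some piece has an uncountable
boundary.
-/

open Set
open Pool.Agent.RGQ54

namespace Pool.Agent.Results.MP_191941_gt.UncountableBoundary

/-- **Theorem.** If Rogers' set `A` is taken to a set `Y` with a finite boundary, for instance to
`(0, 1/2)`, by any finite number of pieces `P i` and any isometries `g i` of the line, then the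
boundary of some piece is uncountable. -/
theorem result {n : ℕ} (P : Fin n → Set ℝ) (g : Fin n → ℝ ≃ᵢ ℝ) (Y : Set ℝ)
    (hY : (frontier Y).Finite) (h : Equidecomposition P g A Y) :
    ∃ i, ¬ (frontier (P i)).Countable := by
  by_contra hno
  push Not at hno
  exact finite_false h hY fun e => finite_countable h.bounded hno

end Pool.Agent.Results.MP_191941_gt.UncountableBoundary
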